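import Mathlib

/-!
# Non-trivial vertex covers of intersecting `r`-partite hypergraphs: definitions
-/

namespace Q112.NTC

open Finset

/-- An `r`-partite hypergraph: a finite vertex set with a division into `r` sides and a finite set
of edges, each containing exactly one vertex of each side; every vertex lies in an edge. -/
structure PHyp (r : ℕ) where
  /-- the vertices -/
  V : Type
  [fin : Fintype V]
  [dec : DecidableEq V]
  /-- the side of a vertex -/
  side : V → Fin r
  /-- the edges -/
  E : Finset (Finset V)
  transversal : ∀ e ∈ E, ∀ i, ∃! v, v ∈ e ∧ side v = i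
  covered : ∀ v, ∃ e ∈ E, v ∈ e

attribute [instance] PHyp.fin PHyp.dec

variable {r : ℕ} (H : PHyp r)

/-- Any two edges share a vertex. -/
def Intersecting : Prop := ∀ e ∈ H.E, ∀ f ∈ H.E, (e ∩ f).Nonempty

/-- The set of vertices of the side `i`. -/
def sideSet (i : Fin r) : Finset H.V := univ.filter fun v => H.side v = i

/-- `T` meets every edge. -/
def IsCover (T : Finset H.V) : Prop := ∀ e ∈ H.E, (e ∩ T).Nonempty

/-- `T` is a non-trivial vertex cover: it contains no edge and no side. -/
def NontrivialCover (T : Finset H.V) : Prop :=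
  IsCover H T ∧ (∀ e ∈ H.E, ¬ e ⊆ T) ∧ ∀ i, ¬ sideSet H i ⊆ T

/-- The minimum size of a non-trivial vertex cover. -/
noncomputable def tauStar : ℕ := sInf {m | ∃ T : Finset H.V, NontrivialCover H T ∧ T.card = m}

/-- `f(r)`: the supremum of `τ*(H)` over all intersecting `r`-partite hypergraphs with a
non-trivial vertex cover. -/
noncomputable def f (r : ℕ) : ℕ∞ :=
  ⨆ (H : PHyp r) (_ : Intersecting H) (_ : ∃ T, NontrivialCover H T), (tauStar H : ℕ∞)

end Q112.NTC
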